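import Pool.Agent.H86.Nco.Hand

/-!
# Manifolds with almost nonnegative but no nonnegative curvature operator, in every dimension

For every `K ≥ 0`, `MK K` is the total space of the unit sphere bundle of `L ⊕ ℝ^(K+1)` over
`CP¹ = S²`, where `L` is the tautological complex line bundle; it is a closed simply connected
manifold of dimension `n = K + 4` (for `n = 4` it is `CP² # -CP²`).  It admits almost nonnegative
curvature operator, but it carries no Riemannian metric with nonnegative curvature operator.
-/

open scoped Manifold ContDiff

namespace Pool.Agent.Results.MP_b7dcac_gt.NoNonnegativeMetric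

open Pool.Agent.H86.Anco.Stmt

/-- For every `K`, the nontrivial `S^(K+2)`-bundle `MK K` over `S²` is compact, Hausdorff and simply
connected, and it has a smooth structure of dimension `K + 4` for which the inclusion into the
ambient vector space is a smooth immersion and for which it admits almost nonnegative curvature
operator, but no smooth Riemannian metric whose curvature operator is nonnegative. -/
theorem result (K : ℕ) :
    Module.finrank ℝ (EK K) = K + 4 ∧ T2Space (MK K) ∧ CompactSpace (MK K) ∧
      SimplyConnectedSpace (MK K) ∧
      ∃ (_ : ChartedSpace (EK K) (MK K)) (_ : IsManifold 𝓘(ℝ, EK K) ∞ (MK K)),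
        ContMDiff 𝓘(ℝ, EK K) 𝓘(ℝ, VK K) ∞ (incl K) ∧
        (∀ x : MK K, Function.Injective (mfderiv 𝓘(ℝ, EK K) 𝓘(ℝ, VK K) (incl K) x)) ∧
        AdmitsANCO (EK K) (MK K) ∧
        ¬ ∃ g : RMetric (EK K) (MK K), HasCurvOpGE g 0 :=
  Pool.Agent.H86.Nco.main_full K

end Pool.Agent.Results.MP_b7dcac_gt.NoNonnegativeMetric
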